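import Mathlib

/-! Odd perfect numbers: a sharper local lemma at one prime. -/

set_option autoImplicit false

namespace Pool.Agent.H76E

private theorem dvd_sub_right_iff {p x y : ℤ} (h1 : p ∣ x - y) (h2 : p ∣ y) : p ∣ x := by
  have := dvd_add h1 h2
  simpa using this

/-- primes of `σ (q ^ k)`: the prime power is bounded by a power of the cofactor -/
theorem L3r {p q K c a b μ : ℕ} (hp : p.Prime) (hp2 : p ≠ 2) (hK3 : 3 ≤ K) (hKo : Odd K) (hca : c ≤ 2 * a)
    (hQ : p ^ c ∣ q ^ (2 * K) - 1) (hq : 1 ≤ q) (hc : 1 ≤ c)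
    (hg : (p - 1) * μ * q ^ b + 1 = p ^ (2 * a + 1)) (hμo : Odd μ) (hμ : 2 ≤ μ) :
    (p ^ c) ^ 2 ≤ μ ^ ((K - 1) * (K + 3)) := by
  have hK : 1 ≤ K := by omega
  have hp3 : 3 ≤ p := by
    have := hp.two_le
    omega
  have hpodd : ¬ 2 ∣ p := fun h => hp2 ((Nat.prime_dvd_prime_iff_eq Nat.prime_two hp).1 h).symm
  set M := (p - 1) * μ with hM
  have hM1 : 1 ≤ M := Nat.mul_pos (by omega) (by omega)
  -- `M ^ (2 K) = 1` modulo `p ^ c`
  have h1 : ((q : ZMod (p ^ c)) ^ (2 * K)) = 1 := by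
    have h2 : ((q ^ (2 * K) - 1 : ℕ) : ZMod (p ^ c)) = 0 := (ZMod.natCast_eq_zero_iff _ _).2 hQ
    rw [Nat.cast_sub (Nat.one_le_pow _ _ hq)] at h2
    push_cast at h2
    exact sub_eq_zero.1 h2
  have h2 : ((M : ZMod (p ^ c)) * (q : ZMod (p ^ c)) ^ b) = -1 := by
    have h3 : ((M * q ^ b + 1 : ℕ) : ZMod (p ^ c)) = 0 := by
      rw [hM, hg]
      exact (ZMod.natCast_eq_zero_iff _ _).2 (pow_dvd_pow p (by omega))
    push_cast at h3
    exact eq_neg_of_add_eq_zero_left h3
  have h4 : ((M : ZMod (p ^ c)) ^ (2 * K)) = 1 := by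
    have h5 : ((M : ZMod (p ^ c)) * (q : ZMod (p ^ c)) ^ b) ^ (2 * K) = 1 := by
      rw [h2, pow_mul]
      simp
    rw [mul_pow, ← pow_mul (q : ZMod (p ^ c)), mul_comm b, pow_mul (q : ZMod (p ^ c)), h1, one_pow,
      mul_one] at h5
    exact h5
  have h6 : (p ^ c : ℕ) ∣ (M ^ K - 1) * (M ^ K + 1) := by
    have hMK : 1 ≤ M ^ K := Nat.one_le_pow _ _ hM1
    have h7 : ((M ^ K - 1) * (M ^ K + 1)) = M ^ (2 * K) - 1 := by
      rw [mul_comm 2 K, pow_mul, sq]
      have := Nat.mul_self_sub_mul_self_eq (M ^ K) 1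
      rw [one_mul] at this
      rw [this, mul_comm]
    rw [h7, ← ZMod.natCast_eq_zero_iff, Nat.cast_sub (Nat.one_le_pow _ _ hM1)]
    push_cast
    rw [h4, sub_self]
  have hMK : 1 ≤ M ^ K := Nat.one_le_pow _ _ hM1
  have hM2 : 2 ≤ M ^ K := by
    have : 2 ≤ M := by
      have : 2 * 2 ≤ (p - 1) * μ := Nat.mul_le_mul (by omega) hμ
      omega
    calc 2 ≤ M := this
      _ = M ^ 1 := (pow_one M).symm
      _ ≤ M ^ K := Nat.pow_le_pow_right hM1 hK
  have h8 : p ^ c ≤ M ^ K + 1 := by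
    by_cases h9 : p ∣ M ^ K + 1
    · have h10 : ¬ p ∣ M ^ K - 1 := by
        intro h11
        have h12 : p ∣ (M ^ K + 1) - (M ^ K - 1) := Nat.dvd_sub h9 h11
        have h13 : (M ^ K + 1) - (M ^ K - 1) = 2 := by omega
        rw [h13] at h12
        exact absurd (Nat.le_of_dvd (by norm_num) h12) (by omega)
      have h14 : Nat.Coprime (p ^ c) (M ^ K - 1) :=
        ((Nat.Prime.coprime_iff_not_dvd hp).2 h10).pow_left _
      exact Nat.le_of_dvd (by omega) (h14.dvd_of_dvd_mul_left h6)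
    · have h14 : Nat.Coprime (p ^ c) (M ^ K + 1) :=
        ((Nat.Prime.coprime_iff_not_dvd hp).2 h9).pow_left _
      have := Nat.le_of_dvd (by omega) (h14.dvd_of_dvd_mul_right h6)
      omega
  -- `p ≤ μ ^ K`
  have hpp : p ∣ p ^ c := dvd_pow_self p (by omega)
  have h15 : p ∣ (μ ^ K - 1) * (μ ^ K + 1) := by
    have hμK : 1 ≤ μ ^ K := Nat.one_le_pow _ _ (by omega)
    have h7 : ((μ ^ K - 1) * (μ ^ K + 1)) = μ ^ (2 * K) - 1 := by
      rw [mul_comm 2 K, pow_mul, sq]
      have := Nat.mul_self_sub_mul_self_eq (μ ^ K) 1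
      rw [one_mul] at this
      rw [this, mul_comm]
    rw [h7, ← ZMod.natCast_eq_zero_iff, Nat.cast_sub (Nat.one_le_pow _ _ (by omega))]
    push_cast
    have h16 : ((M : ZMod p) ^ (2 * K)) = 1 := by
      have h17 : ((M ^ (2 * K) - 1 : ℕ) : ZMod p) = 0 := by
        rw [ZMod.natCast_eq_zero_iff]
        refine hpp.trans ?_
        rw [← ZMod.natCast_eq_zero_iff, Nat.cast_sub (Nat.one_le_pow _ _ hM1)]
        push_cast
        rw [h4, sub_self]
      rw [Nat.cast_sub (Nat.one_le_pow _ _ hM1)] at h17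
      push_cast at h17
      exact sub_eq_zero.1 h17
    have h18 : (M : ZMod p) = - (μ : ZMod p) := by
      rw [hM]
      push_cast
      rw [Nat.cast_sub (by omega)]
      simp
    rw [h18, pow_mul, neg_sq, ← pow_mul] at h16
    rw [h16, sub_self]
  have hμK2 : 2 ≤ μ ^ K := by
    calc 2 ≤ μ := hμ
      _ = μ ^ 1 := (pow_one μ).symm
      _ ≤ μ ^ K := Nat.pow_le_pow_right (by omega) hK
  have h19 : p ≤ μ ^ K := by
    rcases (Nat.Prime.dvd_mul hp).1 h15 with h | h
    · have := Nat.le_of_dvd (by omega) h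
      omega
    · have h20 : 2 ∣ μ ^ K + 1 := by
        have : Odd (μ ^ K) := hμo.pow
        obtain ⟨y, hy⟩ := this
        exact ⟨y + 1, by omega⟩
      have h21 : Nat.Coprime 2 p := (Nat.Prime.coprime_iff_not_dvd Nat.prime_two).2 hpodd
      have h22 := Nat.le_of_dvd (by omega) (h21.mul_dvd_of_dvd_of_dvd h20 h)
      omega
  have hμ3 : 3 ≤ μ := by
    obtain ⟨y, hy⟩ := hμo
    omega
  rcases Nat.lt_or_ge c 2 with hc2 | hc2
  · have hc1' : c = 1 := by omega
    rw [hc1', pow_one]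
    calc p ^ 2 ≤ (μ ^ K) ^ 2 := Nat.pow_le_pow_left h19 2
      _ = μ ^ (K * 2) := by rw [pow_mul]
      _ ≤ μ ^ ((K - 1) * (K + 3)) := by
        refine Nat.pow_le_pow_right (by omega) ?_
        obtain ⟨s, hs⟩ : ∃ s, K = s + 3 := ⟨K - 3, by omega⟩
        subst hs
        have : s + 3 - 1 = s + 2 := by omega
        rw [this]
        nlinarith
  have hsq : p ^ 2 ≤ μ ^ (K + 1) := by
    -- the sign
    obtain ⟨σ, hσ, hdiv⟩ : ∃ σ : ℤ, (σ = 1 ∨ σ = -1) ∧ ((p : ℤ) ^ 2) ∣ (M : ℤ) ^ K + σ := by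
      by_cases h9 : p ∣ M ^ K + 1
      · have h10 : ¬ p ∣ M ^ K - 1 := by
          intro h11
          have h12 : p ∣ (M ^ K + 1) - (M ^ K - 1) := Nat.dvd_sub h9 h11
          have h13 : (M ^ K + 1) - (M ^ K - 1) = 2 := by omega
          rw [h13] at h12
          exact absurd (Nat.le_of_dvd (by norm_num) h12) (by omega)
        have h14 : Nat.Coprime (p ^ c) (M ^ K - 1) :=
          ((Nat.Prime.coprime_iff_not_dvd hp).2 h10).pow_left _
        have h15 : p ^ c ∣ M ^ K + 1 := h14.dvd_of_dvd_mul_left h6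
        have h16 : p ^ 2 ∣ M ^ K + 1 := (pow_dvd_pow p hc2).trans h15
        refine ⟨1, Or.inl rfl, ?_⟩
        exact_mod_cast h16
      · have h14 : Nat.Coprime (p ^ c) (M ^ K + 1) :=
          ((Nat.Prime.coprime_iff_not_dvd hp).2 h9).pow_left _
        have h15 : p ^ c ∣ M ^ K - 1 := h14.dvd_of_dvd_mul_right h6
        have h16 : p ^ 2 ∣ M ^ K - 1 := (pow_dvd_pow p hc2).trans h15
        refine ⟨-1, Or.inr rfl, ?_⟩
        have h17 : ((M ^ K - 1 : ℕ) : ℤ) = (M : ℤ) ^ K + (-1) := by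
          rw [Nat.cast_sub hMK]
          push_cast
          ring
        rw [← h17]
        exact_mod_cast h16
    have hbin : ∀ n : ℕ, ((p : ℤ) ^ 2) ∣ (1 - (p : ℤ)) ^ n - (1 - n * (p : ℤ)) := by
      intro n
      induction n with
      | zero => simp
      | succ n ih =>
        have e1 : (1 - (p : ℤ)) ^ (n + 1) - (1 - ((n + 1 : ℕ) : ℤ) * (p : ℤ)) =
            (1 - (p : ℤ)) * ((1 - (p : ℤ)) ^ n - (1 - n * (p : ℤ))) + (p : ℤ) ^ 2 * n := by
          push_cast
          ring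
        rw [e1]
        exact dvd_add (Dvd.dvd.mul_left ih _) (Dvd.intro _ rfl)
    have hMz : (M : ℤ) = ((p : ℤ) - 1) * μ := by
      rw [hM]
      push_cast [Nat.cast_sub (show 1 ≤ p by omega)]
      ring
    have hMK' : (M : ℤ) ^ K = -((1 - (p : ℤ)) ^ K * (μ : ℤ) ^ K) := by
      rw [hMz, mul_pow]
      have : ((p : ℤ) - 1) ^ K = -((1 - (p : ℤ)) ^ K) := by
        rw [← hKo.neg_pow]
        congr 1
        ring
      rw [this]
      ring
    have hd1 : ((p : ℤ) ^ 2) ∣ ((μ : ℤ) ^ K - σ) - K * p * (μ : ℤ) ^ K := by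
      have e1 : (((μ : ℤ) ^ K - σ) - K * p * (μ : ℤ) ^ K) =
          -(((M : ℤ) ^ K + σ) + ((1 - (p : ℤ)) ^ K - (1 - K * (p : ℤ))) * (μ : ℤ) ^ K) := by
        rw [hMK']
        ring
      rw [e1, dvd_neg]
      exact dvd_add hdiv (Dvd.dvd.mul_right (hbin K) _)
    have hp1 : (p : ℤ) ∣ (μ : ℤ) ^ K - σ := by
      have e1 : (p : ℤ) ∣ ((μ : ℤ) ^ K - σ) - K * p * (μ : ℤ) ^ K :=
        (Dvd.intro_left _ (by ring : (p : ℤ) * p = (p : ℤ) ^ 2)).trans hd1
      have e2 : (p : ℤ) ∣ K * p * (μ : ℤ) ^ K := ⟨K * (μ : ℤ) ^ K, by ring⟩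
      exact (dvd_sub_right_iff e1 e2)
    obtain ⟨s, hs⟩ := hp1
    have hp0 : (0 : ℤ) < p := by exact_mod_cast hp.pos
    have hd2 : (p : ℤ) ∣ s - K * σ := by
      rw [hs] at hd1
      have e1 : (p : ℤ) * s - K * p * (μ : ℤ) ^ K = p * (s - K * (μ : ℤ) ^ K) := by ring
      rw [e1, sq] at hd1
      have e2 : (p : ℤ) ∣ s - K * (μ : ℤ) ^ K := Int.dvd_of_mul_dvd_mul_left hp0.ne' hd1
      have e3 : s - K * σ = (s - K * (μ : ℤ) ^ K) + p * (K * s) := by
        have : (μ : ℤ) ^ K = p * s + σ := by linarith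
        rw [this]
        ring
      rw [e3]
      exact dvd_add e2 (Dvd.intro _ rfl)
    have hsne : s - K * σ ≠ 0 := by
      intro h0
      have e1 : s = K * σ := by linarith
      have h2 : Odd ((p : ℤ) * s) := by
        rw [e1]
        have o1 : Odd (p : ℤ) := by
          have : Odd p := hp.odd_of_ne_two hp2
          exact_mod_cast this
        have o2 : Odd (K : ℤ) := by exact_mod_cast hKo
        have o3 : Odd σ := by
          rcases hσ with h | h
          · rw [h]; exact odd_one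
          · rw [h]; exact ⟨-1, by norm_num⟩
        exact o1.mul (o2.mul o3)
      have h3 : Even ((μ : ℤ) ^ K - σ) := by
        have o1 : Odd ((μ : ℤ) ^ K) := by
          have : Odd (μ ^ K) := hμo.pow
          exact_mod_cast this
        have o3 : Odd σ := by
          rcases hσ with h | h
          · rw [h]; exact odd_one
          · rw [h]; exact ⟨-1, by norm_num⟩
        exact o1.sub_odd o3
      rw [hs] at h3
      exact (Int.not_even_iff_odd.2 h2) h3
    have hμKz : (2 : ℤ) ≤ (μ : ℤ) ^ K := by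
      have : 2 ≤ μ ^ K := by
        calc 2 ≤ μ := hμ
          _ = μ ^ 1 := (pow_one μ).symm
          _ ≤ μ ^ K := Nat.pow_le_pow_right (by omega) hK
      exact_mod_cast this
    have hs0 : 0 ≤ s := by
      by_contra hcon
      push Not at hcon
      have : (p : ℤ) * s < 0 := mul_neg_of_pos_of_neg hp0 hcon
      rcases hσ with h | h <;> rw [h] at hs <;> linarith
    have habs : (p : ℤ) ≤ |s - K * σ| :=
      Int.le_of_dvd (abs_pos.2 hsne) ((dvd_abs _ _).2 hd2)
    have hKz : (0 : ℤ) ≤ K := by positivity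
    have hle : (p : ℤ) ≤ s + K := by
      refine habs.trans ?_
      rw [abs_le]
      rcases hσ with h | h <;> rw [h] <;> constructor <;> linarith
    have hps : (p : ℤ) * s ≤ (μ : ℤ) ^ K + 1 := by
      rw [← hs]
      rcases hσ with h | h <;> rw [h] <;> linarith
    rcases Nat.lt_or_ge p (2 * K) with hlt | hge
    · have e1 : p ^ 2 ≤ (2 * K) ^ 2 := Nat.pow_le_pow_left hlt.le 2
      have e2 : ∀ n : ℕ, (2 * (n + 3)) ^ 2 ≤ 3 ^ (n + 4) := by
        intro n
        induction n with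
        | zero => norm_num
        | succ n ih =>
          have : 3 ^ (n + 1 + 4) = 3 * 3 ^ (n + 4) := by ring
          rw [this]
          have h : (2 * (n + 1 + 3)) ^ 2 ≤ 3 * (2 * (n + 3)) ^ 2 := by
            nlinarith [Nat.zero_le (n * n), Nat.zero_le n]
          omega
      have e3 := e2 (K - 3)
      have e4 : K - 3 + 3 = K := by omega
      have e5 : K - 3 + 4 = K + 1 := by omega
      rw [e4, e5] at e3
      exact e1.trans (e3.trans (Nat.pow_le_pow_left hμ3 _))
    · have e1 : (p : ℤ) ^ 2 ≤ 3 * (μ : ℤ) ^ K := by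
        have e2 : (2 * K : ℤ) ≤ p := by exact_mod_cast hge
        have e3 : (p : ℤ) * (p - K) ≤ p * s := mul_le_mul_of_nonneg_left (by linarith) hp0.le
        nlinarith
      have e2 : p ^ 2 ≤ 3 * μ ^ K := by exact_mod_cast e1
      calc p ^ 2 ≤ 3 * μ ^ K := e2
        _ ≤ μ * μ ^ K := Nat.mul_le_mul_right _ hμ3
        _ = μ ^ (K + 1) := by ring
  have h23 : M ^ K + 1 ≤ (p * μ) ^ K := by
    have h24 : M + 1 ≤ p * μ := by
      rw [hM]
      obtain ⟨t, ht⟩ : ∃ t, p = t + 1 := ⟨p - 1, by omega⟩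
      subst ht
      simp only [Nat.add_sub_cancel]
      rw [add_mul, one_mul]
      omega
    have h25 : M ^ K < (M + 1) ^ K := Nat.pow_lt_pow_left (by omega) (by omega)
    calc M ^ K + 1 ≤ (M + 1) ^ K := h25
      _ ≤ (p * μ) ^ K := Nat.pow_le_pow_left h24 K
  have hpμM : M + μ = p * μ := by
    rw [hM]
    obtain ⟨t, ht⟩ : ∃ t, p = t + 1 := ⟨p - 1, by omega⟩
    subst ht
    simp only [Nat.add_sub_cancel]
    rw [add_mul, one_mul]
  rcases Nat.lt_or_ge μ p with hlt | hge
  · -- `p > μ`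
    have k1 : ¬ p ∣ M - 1 := by
      intro h
      have h30 : p ∣ (M - 1) + (μ + 1) := by
        have : (M - 1) + (μ + 1) = p * μ := by omega
        rw [this]
        exact dvd_mul_right _ _
      have h31 : p ∣ μ + 1 := (Nat.dvd_add_right h).1 h30
      have h32 : 2 ∣ μ + 1 := by
        obtain ⟨y, hy⟩ := hμo
        exact ⟨y + 1, by omega⟩
      have h33 : Nat.Coprime 2 p := (Nat.Prime.coprime_iff_not_dvd Nat.prime_two).2 hpodd
      have h34 := Nat.le_of_dvd (by omega) (h33.mul_dvd_of_dvd_of_dvd h32 h31)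
      omega
    have k2 : ¬ p ∣ M + 1 := by
      intro h
      have h30 : p ∣ (M + 1) + (μ - 1) := by
        have : (M + 1) + (μ - 1) = p * μ := by omega
        rw [this]
        exact dvd_mul_right _ _
      have h31 : p ∣ μ - 1 := (Nat.dvd_add_right h).1 h30
      have h32 := Nat.le_of_dvd (by omega) h31
      omega
    have hK1 : (M + 1) ^ K = (M + 1) * (M + 1) ^ (K - 1) := by
      rw [← pow_succ']
      congr 1
      omega
    have k3 : p ^ c ≤ (M + 1) ^ (K - 1) := by
      by_cases h9 : p ∣ M ^ K + 1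
      · have h10 : ¬ p ∣ M ^ K - 1 := by
          intro h11
          have h12 : p ∣ (M ^ K + 1) - (M ^ K - 1) := Nat.dvd_sub h9 h11
          have h13 : (M ^ K + 1) - (M ^ K - 1) = 2 := by omega
          rw [h13] at h12
          exact absurd (Nat.le_of_dvd (by norm_num) h12) (by omega)
        have h14 : Nat.Coprime (p ^ c) (M ^ K - 1) :=
          ((Nat.Prime.coprime_iff_not_dvd hp).2 h10).pow_left _
        have h15 : p ^ c ∣ M ^ K + 1 := h14.dvd_of_dvd_mul_left h6
        obtain ⟨Q, hQ'⟩ : M + 1 ∣ M ^ K + 1 := by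
          have := Odd.nat_add_dvd_pow_add_pow M 1 hKo
          rwa [one_pow] at this
        have h16 : Nat.Coprime (p ^ c) (M + 1) :=
          ((Nat.Prime.coprime_iff_not_dvd hp).2 k2).pow_left _
        rw [hQ'] at h15
        have h17 : p ^ c ∣ Q := h16.dvd_of_dvd_mul_left h15
        have hQpos : 0 < Q := by
          rcases Nat.eq_zero_or_pos Q with h | h
          · rw [h, mul_zero] at hQ'
            omega
          · exact h
        have h18 : (M + 1) * Q ≤ (M + 1) * (M + 1) ^ (K - 1) := by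
          rw [← hQ', ← hK1]
          have h25 : M ^ K < (M + 1) ^ K := Nat.pow_lt_pow_left (by omega) (by omega)
          exact h25
        exact (Nat.le_of_dvd hQpos h17).trans (Nat.le_of_mul_le_mul_left h18 (by omega))
      · have h14 : Nat.Coprime (p ^ c) (M ^ K + 1) :=
          ((Nat.Prime.coprime_iff_not_dvd hp).2 h9).pow_left _
        have h15 : p ^ c ∣ M ^ K - 1 := h14.dvd_of_dvd_mul_right h6
        obtain ⟨x, hx⟩ : ∃ x, M = x + 1 := ⟨M - 1, by omega⟩
        have h16 : (∑ i ∈ Finset.range K, (x + 1) ^ i) * x + 1 = (x + 1) ^ K := geom_sum_mul_add x K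
        have h17 : M ^ K - 1 = x * ∑ i ∈ Finset.range K, (x + 1) ^ i := by
          rw [hx, ← h16, mul_comm]
          omega
        have h18 : Nat.Coprime (p ^ c) x := by
          refine Nat.Coprime.pow_left _ ((Nat.Prime.coprime_iff_not_dvd hp).2 ?_)
          have : M - 1 = x := by omega
          rw [← this]
          exact k1
        rw [h17] at h15
        have h19 : p ^ c ∣ ∑ i ∈ Finset.range K, (x + 1) ^ i := h18.dvd_of_dvd_mul_left h15
        have h20 : ∀ n : ℕ, ∑ i ∈ Finset.range (n + 1), (x + 1) ^ i ≤ (x + 2) ^ n := by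
          intro n
          induction n with
          | zero => simp
          | succ n ih =>
            rw [Finset.sum_range_succ]
            have h21 : (x + 1) ^ (n + 1) ≤ (x + 1) * (x + 2) ^ n := by
              rw [pow_succ']
              exact Nat.mul_le_mul_left _ (Nat.pow_le_pow_left (by omega) n)
            have h22 : (x + 2) ^ (n + 1) = (x + 2) ^ n + (x + 1) * (x + 2) ^ n := by ring
            omega
        have h21 := h20 (K - 1)
        have h22 : K - 1 + 1 = K := by omega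
        rw [h22] at h21
        have hpos : 0 < ∑ i ∈ Finset.range K, (x + 1) ^ i :=
          Finset.sum_pos (fun i _ => by positivity) ⟨0, Finset.mem_range.2 (by omega)⟩
        rw [hx]
        exact (Nat.le_of_dvd hpos h19).trans h21
    have k4 : p ^ c ≤ (p * μ) ^ (K - 1) := k3.trans (Nat.pow_le_pow_left (by omega) _)
    calc (p ^ c) ^ 2 ≤ ((p * μ) ^ (K - 1)) ^ 2 := Nat.pow_le_pow_left k4 2
      _ = (p ^ 2 * μ ^ 2) ^ (K - 1) := by rw [← mul_pow p μ 2, ← pow_mul, ← pow_mul, mul_comm (K - 1) 2]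
      _ ≤ (μ ^ (K + 1) * μ ^ 2) ^ (K - 1) := Nat.pow_le_pow_left (Nat.mul_le_mul_right _ hsq) _
      _ = μ ^ ((K - 1) * (K + 3)) := by rw [← pow_add, ← pow_mul, mul_comm]
  · have k5 : p ^ c ≤ μ ^ (2 * K) := by
      calc p ^ c ≤ M ^ K + 1 := h8
        _ ≤ (p * μ) ^ K := h23
        _ ≤ (μ * μ) ^ K := Nat.pow_le_pow_left (Nat.mul_le_mul_right _ hge) K
        _ = μ ^ (2 * K) := by rw [← sq, ← pow_mul]
    calc (p ^ c) ^ 2 ≤ (μ ^ (2 * K)) ^ 2 := Nat.pow_le_pow_left k5 2
      _ = μ ^ (2 * K * 2) := by rw [← pow_mul]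
      _ ≤ μ ^ ((K - 1) * (K + 3)) := by
        refine Nat.pow_le_pow_right (by omega) ?_
        obtain ⟨s, hs⟩ : ∃ s, K = s + 3 := ⟨K - 3, by omega⟩
        subst hs
        have : s + 3 - 1 = s + 2 := by omega
        rw [this]
        nlinarith


end Pool.Agent.H76E
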